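import Pool.Agent.W97.TL.Rec2

/-!
# MP_87965e_co: two-large sets are sets of 1-nilBohr recurrence, and recur pointwise in 2-step
nilmanifolds and in all unipotent affine nilsystems on tori

`TwoLarge S`: every colouring of the positive integers with two colours has arbitrarily long
monochromatic arithmetic progressions whose common difference is in `S`.
-/

set_option autoImplicit false

namespace Pool.Agent.Results.MP_87965e_co.BohrRecurrence

open Pool.Agent.W97.TL

/-- Let `S` be 2-large.  Then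
(1) for finitely many reals `α l`, `c k l`, real polynomials `P k` with `P k (0) = 0` and `ε > 0`
there is `s ∈ S` with every `α l * s` and every `P k (s) + ∑ l, c k l * s * round (α l * s)` at
distance `< ε` from an integer;
(2) `S` is a set of recurrence, at every point, for every rotation of every group `(ℝ/ℤ)^n × F`,
`F` a finite abelian group (these are the 1-step nilsystems);
(3) for every affine map `T y = y + N y + b` of `(ℝ/ℤ)^n`, `N` a nilpotent integer matrix, every
point `x` and every open `U ∋ x` there is `s ∈ S` with `T^s x ∈ U`;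
(4) for every integer bilinear map `B`, in the 2-step nilpotent group `G = ℝ^p × ℝ^q` with
multiplication `hmul B` and its lattice `Γ = ℤ^p × ℤ^q`: for all `g x : G` and `ε > 0` there are
`s ∈ S` and `γ ∈ Γ` with `g^s x γ` at distance `< ε` of `x`. -/
theorem result (S : Set ℕ) (hS : TwoLarge S) :
    (∀ (p q : ℕ) (α : Fin p → ℝ) (c : Fin q → Fin p → ℝ) (P : Fin q → Polynomial ℝ),
      (∀ k, (P k).eval 0 = 0) → ∀ ε : ℝ, 0 < ε →
      ∃ s ∈ S, (∀ l, ∃ z : ℤ, |α l * s - z| < ε) ∧
        ∀ k, ∃ z : ℤ,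
          |(P k).eval (s : ℝ) + ∑ l, c k l * (s * (round (α l * s) : ℝ)) - z| < ε) ∧
    (∀ (n : ℕ) (F : Type) [AddCommGroup F] [Finite F] [TopologicalSpace F] [DiscreteTopology F]
      (α x : (Fin n → UnitAddCircle) × F) (U : Set ((Fin n → UnitAddCircle) × F)),
      IsOpen U → x ∈ U → ∃ s ∈ S, s • α + x ∈ U) ∧
    (∀ (n d : ℕ) (N : Matrix (Fin n) (Fin n) ℤ), N ^ d = 0 → ∀ (b x : Fin n → UnitAddCircle)
      (U : Set (Fin n → UnitAddCircle)), IsOpen U → x ∈ U → ∃ s ∈ S, (aff N b)^[s] x ∈ U) ∧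
    (∀ (p q : ℕ) (B : Fin q → Fin p → Fin p → ℤ) (g x : (Fin p → ℝ) × (Fin q → ℝ)) (ε : ℝ),
      0 < ε → ∃ s ∈ S, ∃ (u : Fin p → ℤ) (v : Fin q → ℤ),
      (∀ i, |(hmul B ((hmul B g)^[s] x) (fun i => (u i : ℝ), fun k => (v k : ℝ))).1 i - x.1 i|
        < ε) ∧
      (∀ k, |(hmul B ((hmul B g)^[s] x) (fun i => (u i : ℝ), fun k => (v k : ℝ))).2 k - x.2 k|
        < ε)) := by
  refine ⟨fun p q α c P hP ε hε => ?_, fun n F _ _ _ _ α x U hU hx => ?_,
    fun n d N hN b x U hU hx => ?_, fun p q B g x ε hε => nil_rec hS p q B g x ε hε⟩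
  · obtain ⟨s, hs, h1, h2⟩ := bracket_rec hS p q α c P hP ε hε
    exact ⟨s, hs, fun l => ⟨round (α l * s), h1 l⟩, fun k => ⟨_, h2 k⟩⟩
  · exact rotation_rec hS n F α x U hU hx
  · exact affine_rec hS n d N hN b x U hU hx

end Pool.Agent.Results.MP_87965e_co.BohrRecurrence
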